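import Pool.Agent.helper86.BK.Spec

/-! Module `FLD` of project bk (MP_bb5cc8_nt): folding. -/

set_option autoImplicit false

namespace Pool.Agent.BK

theorem FLD_one (N q : ℕ) (B : Finset ℤ) (hN : 1 ≤ N) (hq : 1 ≤ q) (K : ℕ) (b : ℤ)
    (hK : 2 * N + q ≤ K * q) (hb : ∀ k : ℕ, k < K → b + k * q ∈ B) :
    ∃ a : ℤ, ∀ n : ℕ, 1 ≤ n → n ≤ N → (q : ℤ) ∣ (n : ℤ) - a → ∃ j : ℤ, (n : ℤ) + j * N ∈ B := by
  have hN' : (0 : ℤ) < N := by exact_mod_cast hN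
  have hq' : (0 : ℤ) < q := by exact_mod_cast hq
  have hK' : 2 * (N : ℤ) + q ≤ K * q := by exact_mod_cast hK
  have h1 : (-b) / (N : ℤ) * N ≤ -b := Int.ediv_mul_le _ hN'.ne'
  have h2 : -b < ((-b) / (N : ℤ) + 1) * N := Int.lt_ediv_add_one_mul_self _ hN'
  set f : ℤ := (-b) / (N : ℤ) with hf
  refine ⟨b + f * N, fun n hn1 hn2 hd => ⟨-f, ?_⟩⟩
  obtain ⟨t, ht⟩ := hd
  have hn1' : (1 : ℤ) ≤ n := by exact_mod_cast hn1
  have hn2' : (n : ℤ) ≤ N := by exact_mod_cast hn2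
  have e1 : (q : ℤ) * t = n - f * N - b := by rw [← ht]; ring
  have h3 : 0 < (q : ℤ) * t := by
    rw [e1]
    linarith
  have h4 : (q : ℤ) * t < 2 * N := by
    rw [e1]
    have e2 : (f + 1) * (N : ℤ) = f * N + N := by ring
    rw [e2] at h2
    linarith
  have ht0 : 0 < t := (pos_iff_pos_of_mul_pos h3).1 hq'
  have htK : t < K := by
    by_contra hc
    have hc' : (K : ℤ) ≤ t := not_lt.1 hc
    have h5 : (K : ℤ) * q ≤ t * q := mul_le_mul_of_nonneg_right hc' hq'.le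
    have e3 : t * (q : ℤ) = q * t := mul_comm _ _
    linarith
  obtain ⟨k, rfl⟩ := Int.eq_ofNat_of_zero_le ht0.le
  have hk : k < K := by exact_mod_cast htK
  have h6 := hb k hk
  have e4 : (n : ℤ) + -f * N = b + (k : ℤ) * q := by
    have e5 : (q : ℤ) * (k : ℤ) = n - f * N - b := e1
    have e6 : (k : ℤ) * q = q * k := mul_comm _ _
    rw [e6, e5]
    ring
  rw [e4]
  exact h6

theorem FLD : FLD_stmt := by
  classical
  intro N Q B hN hQ h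
  have h' : ∀ q : ℕ, ∃ a : ℤ, q ∈ Q → ∀ n : ℕ, 1 ≤ n → n ≤ N → (q : ℤ) ∣ (n : ℤ) - a →
      ∃ j : ℤ, (n : ℤ) + j * N ∈ B := by
    intro q
    by_cases hq : q ∈ Q
    · obtain ⟨K, b, hK, hb⟩ := h q hq
      obtain ⟨a, ha⟩ := FLD_one N q B hN (hQ q hq) K b hK hb
      exact ⟨a, fun _ => ha⟩
    · exact ⟨0, fun hq' => absurd hq' hq⟩
  choose a ha using h'
  refine ⟨a, ?_⟩
  let g : ℤ → ℕ := fun x => ((x - 1) % (N : ℤ) + 1).toNat
  have hsub : {n : ℕ | 1 ≤ n ∧ n ≤ N ∧ ∃ q ∈ Q, (q : ℤ) ∣ (n : ℤ) - a q} ⊆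
      ((B.image g : Finset ℕ) : Set ℕ) := by
    rintro n ⟨hn1, hn2, q, hq, hd⟩
    obtain ⟨j, hj⟩ := ha q hq n hn1 hn2 hd
    rw [Finset.coe_image]
    refine ⟨_, hj, ?_⟩
    show (((n : ℤ) + j * N - 1) % (N : ℤ) + 1).toNat = n
    have e1 : (n : ℤ) + j * N - 1 = ((n : ℤ) - 1) + j * N := by ring
    have e2 : ((n : ℤ) - 1) % (N : ℤ) = (n : ℤ) - 1 := by
      apply Int.emod_eq_of_lt
      · have : (1 : ℤ) ≤ n := by exact_mod_cast hn1
        linarith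
      · have : (n : ℤ) ≤ N := by exact_mod_cast hn2
        linarith
    rw [e1, Int.add_mul_emod_self_right, e2, sub_add_cancel, Int.toNat_natCast]
  calc cov Q a N ≤ ((B.image g : Finset ℕ) : Set ℕ).ncard :=
        Set.ncard_le_ncard hsub (Finset.finite_toSet _)
    _ = (B.image g).card := Set.ncard_coe_finset _
    _ ≤ B.card := Finset.card_image_le

end Pool.Agent.BK
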